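import Pool.Agent.H.MP_3edc48.D

namespace Pool.Agent.Results.MP_3edc48_gt.NonM
open Set Filter Topology

/-- kappa-Frechet: an open set with `x` in its boundary contains a countably infinite
set converging to `x`. -/
def KF (Y : Type) [TopologicalSpace Y] : Prop :=
  ∀ (x : Y) (A : Set Y), IsOpen A → x ∈ closure A \ A →
    ∃ B ⊆ A, B.Countable ∧ B.Infinite ∧ x ∉ B ∧ ∀ U ∈ 𝓝 x, (B \ U).Finite

theorem result : ∃ κ : Cardinal,
    IsLeast {c | ∃ X : Set ℝ, Cardinal.mk X = c ∧ ¬ KF {f : X → ℝ // Continuous f}} κ ∧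
    IsLeast {c | ∃ Y : Set ℝ, Cardinal.mk Y = c ∧ ¬ IsMeagre Y} κ := by
  have hne : {c | ∃ Y : Set ℝ, Cardinal.mk Y = c ∧ ¬ IsMeagre Y}.Nonempty :=
    ⟨_, univ, rfl, not_isMeagre_of_isOpen isOpen_univ univ_nonempty⟩
  have hl : IsLeast {c | ∃ Y : Set ℝ, Cardinal.mk Y = c ∧ ¬ IsMeagre Y}
      (sInf {c | ∃ Y : Set ℝ, Cardinal.mk Y = c ∧ ¬ IsMeagre Y}) :=
    ⟨csInf_mem hne, fun _ hc => csInf_le' hc⟩
  refine ⟨_, ⟨?_, ?_⟩, hl⟩
  · obtain ⟨Y, hY1, hY2⟩ := hl.1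
    obtain ⟨X, hX, f, A, hA, hf1, hf2, hno⟩ := Pool.Agent.H.MP_3edc48.notseq hY2
    refine ⟨X, hX.trans hY1, fun hK => ?_⟩
    obtain ⟨B, hBA, hBc, hBi, -, hB⟩ := hK f A hA ⟨hf1, hf2⟩
    haveI := hBc.to_subtype
    haveI := hBi.to_subtype
    obtain ⟨e⟩ := nonempty_denumerable B
    let g : ℕ → B := (Denumerable.eqv B).symm
    have hg : Function.Injective fun n => (g n).1 :=
      Subtype.val_injective.comp (Denumerable.eqv B).symm.injective
    apply hno (fun n => (g n).1) (fun n => hBA (g n).2)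
    rw [← Nat.cofinite_eq_atTop]
    intro U hU
    refine ((hB U hU).preimage hg.injOn).subset fun n hn => ⟨(g n).2, hn⟩
  · rintro c ⟨X, rfl, hX⟩
    have : ¬ Pool.Agent.H.MP_3edc48.Kap X := by
      intro hK
      apply hX
      intro f A hA hf
      obtain ⟨g, hg1, hg2⟩ := Pool.Agent.H.MP_3edc48.seq_of_kap hK hA hf.1
      have hfB : f ∉ range g := by
        rintro ⟨n, rfl⟩
        exact hf.2 (hg1 n)
      refine ⟨range g, range_subset_iff.2 hg1, countable_range g, fun hfin => ?_, hfB, fun U hU => ?_⟩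
      · obtain ⟨n, hn⟩ := (hg2.eventually (hfin.isClosed.isOpen_compl.mem_nhds hfB)).exists
        exact hn (mem_range_self n)
      · rw [← Nat.cofinite_eq_atTop] at hg2
        refine ((hg2 hU).image g).subset ?_
        rintro _ ⟨⟨n, rfl⟩, hn⟩
        exact ⟨n, hn, rfl⟩
    obtain ⟨Z, hZ1, hZ2⟩ := Pool.Agent.H.MP_3edc48.of_not_kap this
    exact (hl.2 ⟨Z, rfl, hZ1⟩).trans hZ2

end Pool.Agent.Results.MP_3edc48_gt.NonM
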